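import Pool.Agent.helper19.MX.SpecD

/-! # Project mx, row FRM: forms as polynomials -/

namespace MX

open Pool.Agent.helper53.AU AN
open scoped Classical Topology
open Finset (range)

theorem FRM_cut {k : Type} [Field k] (h H : ℕ) (a : ℕ → k) (hH : h ≤ H) (hlev : Lev h a) :
    pa H a = pa h a := by
  unfold pa
  refine (Finset.sum_subset (Finset.range_subset_range.2 (by omega)) ?_).symm
  intro i _ hi
  rw [Finset.mem_range] at hi
  rw [hlev.2 i (by omega), Polynomial.C_0, zero_mul]

theorem FRM_eval {k : Type} [Field k] (h : ℕ) (a : ℕ → k) (x : k) :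
    (pa h a).eval x = fa h a x := by
  unfold pa fa
  rw [Polynomial.eval_finsetSum]
  refine Finset.sum_congr rfl fun i _ => ?_
  simp

theorem FRM_coeff {k : Type} [Field k] (h : ℕ) (a : ℕ → k) (n : ℕ) :
    (pa h a).coeff n = ∑ i ∈ range (h + 1), if n = 2 ^ i + 1 then a i else 0 := by
  unfold pa
  rw [Polynomial.finsetSum_coeff]
  refine Finset.sum_congr rfl fun i _ => ?_
  rw [Polynomial.coeff_C_mul, Polynomial.coeff_X_pow]
  split_ifs <;> simp

theorem FRM_deg {k : Type} [Field k] (h : ℕ) (a : ℕ → k) (hlev : Lev h a) :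
    (pa h a).natDegree = 2 ^ h + 1 := by
  refine le_antisymm ?_ ?_
  · rw [Polynomial.natDegree_le_iff_coeff_eq_zero]
    intro n hn
    rw [FRM_coeff]
    refine Finset.sum_eq_zero fun i hi => ?_
    rw [Finset.mem_range] at hi
    rw [if_neg]
    rintro rfl
    have := Nat.pow_le_pow_right (show 0 < 2 by norm_num) (show i ≤ h by omega)
    omega
  · apply Polynomial.le_natDegree_of_ne_zero
    rw [FRM_coeff, Finset.sum_eq_single h]
    · rw [if_pos rfl]; exact hlev.1
    · intro i hi hih
      rw [Finset.mem_range] at hi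
      rw [if_neg]
      intro heq
      have := Nat.pow_lt_pow_right (show 1 < 2 by norm_num) (show i < h by omega)
      omega
    · intro hh
      exact absurd (Finset.mem_range.2 (by omega)) hh

theorem FRM : FRM_stmt := by
  intro k _
  refine ⟨fun h H a h1 hH hlev => ⟨?_, fun x => ?_⟩, fun H A T => ?_⟩
  · rw [FRM_cut h H a hH hlev]
    exact FRM_deg h a hlev
  · rw [FRM_cut h H a hH hlev]
    exact FRM_eval h a x
  · unfold pa sumT
    rw [Finset.sum_comm]
    refine Finset.sum_congr rfl fun i _ => ?_
    rw [map_sum, Finset.sum_mul]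

end MX
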