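import Pool.Agent.helper19.MX.SpecD

/-! # Project mx, row GE0: genus 0 -/

namespace MX

open Pool.Agent.helper53.AU AN
open scoped Classical Topology

/-- the order of a polynomial in `x` at a simple pole of `x` is not positive -/
theorem GE0_ord {k F : Type} [Field k] [Field F] [Algebra k F] (P : Place k F) (x : F)
    (hx : P.ord x = -1) (φ : Polynomial k) (hφ : φ ≠ 0) :
    P.ord (Polynomial.aeval x φ) ≤ 0 := by
  have hx0 : x ≠ 0 := by
    rintro rfl
    rw [P.ord_zero] at hx
    omega
  set d := φ.natDegree with hd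
  by_contra hcon
  have h1 : P.Ge (-(d : ℤ) + 1) (Polynomial.aeval x φ) := Or.inr (by omega)
  have h2 : Polynomial.aeval x φ = algebraMap k F (φ.coeff d) * x ^ d +
      ∑ i ∈ Finset.range d, algebraMap k F (φ.coeff i) * x ^ i := by
    rw [Polynomial.aeval_eq_sum_range, Finset.sum_range_succ, add_comm]
    simp only [Algebra.smul_def]
    rfl
  have h3 : P.Ge (-(d : ℤ) + 1) (∑ i ∈ Finset.range d, algebraMap k F (φ.coeff i) * x ^ i) := by
    apply Place.Ge.sum
    intro i hi
    rw [Finset.mem_range] at hi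
    have h4 : P.Ge (-(i : ℤ)) (x ^ i) := by
      right
      rw [P.ord_pow hx0, hx]
      omega
    have h5 := (P.ge_const (φ.coeff i)).mul h4
    exact h5.mono (by omega)
  have h6 : P.Ge (-(d : ℤ) + 1) (algebraMap k F (φ.coeff d) * x ^ d) := by
    have h7 := h1.sub h3
    rw [h2, add_sub_cancel_right] at h7
    exact h7
  have hc : φ.coeff d ≠ 0 := by
    rw [hd]
    exact Polynomial.leadingCoeff_ne_zero.2 hφ
  have hc' : algebraMap k F (φ.coeff d) ≠ 0 := by simpa using hc
  have h8 := h6.le (mul_ne_zero hc' (pow_ne_zero d hx0))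
  rw [P.ord_mul _ _ hc' (pow_ne_zero d hx0), P.ord_const _ hc, P.ord_pow hx0, hx] at h8
  omega

theorem GE0 (hLIN : LIN_stmt) (hQR2 : QR2_stmt) (hQA1 : QA1_stmt) (hQA3 : QA3_stmt) :
    GE0_stmt := by
  intro k F _ _ _ _ _ x y f hAS
  have hset : {j : ℕ | j < 0} = ∅ := by
    ext j; simp
  have hgen : IntermediateField.adjoin k ({x} : Set F) = ⊤ := by
    have := hAS.gen
    rwa [hset, Set.image_empty, Set.union_empty] at this
  have hfd : FiniteDimensional (IntermediateField.adjoin k ({x} : Set F)) F := by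
    refine ⟨⟨{1}, ?_⟩⟩
    rw [eq_top_iff]
    intro z _
    have hz : z ∈ IntermediateField.adjoin k ({x} : Set F) := by
      rw [hgen]; exact IntermediateField.mem_top
    have h1 : z = (⟨z, hz⟩ : IntermediateField.adjoin k ({x} : Set F)) • (1 : F) := by
      rw [Algebra.smul_def, mul_one]
      rfl
    rw [h1]
    apply Submodule.smul_mem
    apply Submodule.subset_span
    simp
  have hFF : IsFF k F := ⟨x, hAS.tr, hfd⟩
  obtain ⟨P, -, hPx, huniq, -⟩ := hLIN k F x hAS.tr hgen
  have hxreg : x ∈ Reg P := by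
    intro P' hP'
    right
    by_contra hcon
    exact hP' (huniq P' (by omega))
  obtain ⟨u, μ, hOne⟩ := hQA1 k F hFF P x 1 one_pos hxreg (by rw [hPx]; rfl)
  have hμ : μ 0 = 0 := by
    obtain ⟨φ, hφ⟩ := hOne.span 1 (Subalgebra.one_mem _)
    rw [Fin.sum_univ_one] at hφ
    have hφ0 : φ 0 ≠ 0 := by
      intro h
      rw [h, map_zero, zero_mul] at hφ
      exact one_ne_zero hφ
    have ha0 : Polynomial.aeval x (φ 0) ≠ 0 := by
      intro h
      rw [h, zero_mul] at hφ
      exact one_ne_zero hφ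
    have h1 := GE0_ord P x hPx (φ 0) hφ0
    have h2 := P.ord_mul _ _ ha0 (hOne.ne 0)
    rw [← hφ, P.ord_one, hOne.ord 0] at h2
    omega
  obtain ⟨g, hg⟩ := hQR2 k F hFF
  have h3 := hQA3 k F hFF g hg P x 1 u μ hOne
  rw [Fin.sum_univ_one, hμ] at h3
  have h4 : g = 0 := by
    push_cast at h3
    omega
  rw [h4] at hg
  exact hg

end MX
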