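import Pool.Agent.helper19.MX.SpecA

/-! # Project mx, row GNA -/

namespace MX

open Pool.Agent.helper53.AU AN
open scoped Classical Topology

theorem GNA_cont (L : Type) [Field L] [TopologicalSpace L] [IsTopologicalDivisionRing L]
    (m : L) (a : ℕ → L) :
    Continuous fun v : L => (fun i => a i + (if i = 0 then v ^ 2 * (m + m ^ 4)
      else if i = 1 then v ^ 3 else 0) : ℕ → L) := by
  refine continuous_pi fun i => ?_
  by_cases h0 : i = 0
  · simp only [h0, if_true]
    fun_prop
  · by_cases h1 : i = 1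
    · simp only [h1, one_ne_zero, if_false, if_true]
      fun_prop
    · simp only [h0, h1, if_false]
      fun_prop

theorem GNA_bb (L : Type) [Field L] [TopologicalSpace L] [IsTopologicalDivisionRing L]
    (h : ℕ) : Continuous fun a : ℕ → L => bb h a := by
  refine continuous_pi fun i => ?_
  unfold bb
  exact (continuous_apply i).pow _

theorem GNA_zero {L : Type} [Field L] (m : L) (a : ℕ → L) :
    (fun i => a i + (if i = 0 then (0 : L) ^ 2 * (m + m ^ 4)
      else if i = 1 then (0 : L) ^ 3 else 0) : ℕ → L) = a := by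
  funext i
  by_cases h0 : i = 0
  · simp [h0]
  · by_cases h1 : i = 1 <;> simp [h0, h1]

theorem GNA (hOPN : OPN_stmt) : GNA_stmt := by
  intro L _ _ _ _ _ hHH θ m h a hh hlev hcert
  have hc := GNA_cont L m a
  have h0 := GNA_zero m a
  have hC : ∀ᶠ v in 𝓝 (0 : L), Cert L θ h (bb h (fun i => a i + (if i = 0 then v ^ 2 * (m + m ^ 4)
      else if i = 1 then v ^ 3 else 0))) := by
    have h1 := hOPN L hHH θ h (bb h a) hcert
    have h2 : Filter.Tendsto (fun v : L => bb h (fun i => a i + (if i = 0 then v ^ 2 * (m + m ^ 4)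
      else if i = 1 then v ^ 3 else 0))) (𝓝 0) (𝓝 (bb h a)) := by
      have h3 := ((GNA_bb L h).comp hc).tendsto 0
      have h4 : ((fun a : ℕ → L => bb h a) ∘ fun v : L => (fun i => a i +
          (if i = 0 then v ^ 2 * (m + m ^ 4) else if i = 1 then v ^ 3 else 0) : ℕ → L)) 0 =
          bb h a := by
        exact congrArg (bb h) h0
      rw [h4] at h3
      exact h3
    exact h2.eventually h1
  have hL : ∀ᶠ v in 𝓝 (0 : L), a h + (if h = 0 then v ^ 2 * (m + m ^ 4)
      else if h = 1 then v ^ 3 else 0) ≠ 0 := by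
    have h1 : Filter.Tendsto (fun v : L => a h + (if h = 0 then v ^ 2 * (m + m ^ 4)
      else if h = 1 then v ^ 3 else 0)) (𝓝 0) (𝓝 (a h)) := by
      have h3 := ((continuous_apply h).comp hc).tendsto 0
      have h4 : ((fun p : ℕ → L => p h) ∘ fun v : L => (fun i => a i +
          (if i = 0 then v ^ 2 * (m + m ^ 4) else if i = 1 then v ^ 3 else 0) : ℕ → L)) 0 =
          a h := by
        have := congrFun h0 h
        exact this
      rw [h4] at h3
      exact h3
    exact h1.eventually_ne hlev.1
  filter_upwards [hC, hL] with v hv1 hv2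
  refine ⟨⟨hv2, fun i hi => ?_⟩, hv1⟩
  have hi0 : i ≠ 0 := by omega
  have hi1 : i ≠ 1 := by omega
  simp only [hi0, hi1, if_false, add_zero]
  exact hlev.2 i hi

end MX
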