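import Pool.Agent.helper19.MX.SpecA

/-! # Project mx, row LTO: the topology of `Lam` -/

namespace MX

open Pool.Agent.helper53.AU AN
open scoped Classical Topology
open Finset (range)

noncomputable section

open WithZero in
theorem LTO_nhdsK (x : LaurentSeries (ZMod 2)) (s : Set (LaurentSeries (ZMod 2))) :
    s ∈ 𝓝 x ↔ ∃ N : ℤ, ∀ y : LaurentSeries (ZMod 2),
      (∀ j < N, HahnSeries.coeff (y - x) j = 0) → y ∈ s := by
  rw [Valued.mem_nhds]
  constructor
  · rintro ⟨γ, hγ⟩
    set g := MonoidWithZeroHom.ValueGroup₀.embedding γ.1 with hg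
    have hg0 : g ≠ 0 := by
      rw [hg, ne_eq, map_eq_zero]
      exact γ.ne_zero
    refine ⟨1 - log g, fun y hy => hγ ?_⟩
    have h1 : Valued.v (y - x) ≤ exp (-(1 - log g) : ℤ) :=
      (LaurentSeries.valuation_le_iff_coeff_lt_eq_zero (ZMod 2)).2 hy
    have h2 : exp (-(1 - log g) : ℤ) < g := by
      rw [← lt_log_iff_exp_lt hg0]
      omega
    have h3 := lt_of_le_of_lt h1 h2
    exact (Valuation.restrict_lt_iff_lt_embedding _).2 h3
  · rintro ⟨N, hN⟩
    have hne : Valued.v (HahnSeries.single (N - 1) (1 : ZMod 2) : LaurentSeries (ZMod 2)) ≠ 0 := by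
      rw [LaurentSeries.valuation_single_zpow]
      exact exp_ne_zero
    have hne' : Valued.v.restrict
        (HahnSeries.single (N - 1) (1 : ZMod 2) : LaurentSeries (ZMod 2)) ≠ 0 := by
      rw [ne_eq, Valuation.restrict_eq_zero_iff]
      exact hne
    refine ⟨Units.mk0 _ hne', fun y hy => hN y ?_⟩
    have h1 : Valued.v (y - x) <
        Valued.v (HahnSeries.single (N - 1) (1 : ZMod 2) : LaurentSeries (ZMod 2)) :=
      (Valuation.restrict_lt_iff _).1 hy
    rw [LaurentSeries.valuation_single_zpow] at h1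
    have h2 : Valued.v (y - x) ≤ exp (-N : ℤ) := by
      by_cases h0 : Valued.v (y - x) = 0
      · rw [h0]; exact zero_le
      · rw [← log_le_iff_le_exp h0]
        rw [← log_lt_iff_lt_exp h0] at h1
        omega
    exact (LaurentSeries.valuation_le_iff_coeff_lt_eq_zero (ZMod 2)).1 h2

/-- the topology of the valuation on the field of Laurent series -/
@[reducible] def LTO_ts : TopologicalSpace (LS (ZMod 2)) :=
  (inferInstance : TopologicalSpace (LaurentSeries (ZMod 2)))

attribute [local instance] LTO_ts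

theorem LTO_div : IsTopologicalDivisionRing (LS (ZMod 2)) :=
  (inferInstance : IsTopologicalDivisionRing (LaurentSeries (ZMod 2)))

theorem LTO_t2 : T2Space (LS (ZMod 2)) :=
  (inferInstance : T2Space (LaurentSeries (ZMod 2)))

theorem LTO_nhds (x : LS (ZMod 2)) (s : Set (LS (ZMod 2))) :
    s ∈ 𝓝 x ↔ ∃ N : ℤ, ∀ y : LS (ZMod 2), (∀ j < N, cf (y - x) j = 0) → y ∈ s :=
  LTO_nhdsK x s

/-- neighbourhoods in `Lam` -/
theorem LTO_nhdsL (x : Lam) (s : Set Lam) :
    s ∈ 𝓝 x ↔ ∃ N : ℤ, ∀ y : Lam, (∀ j < N, cf (y.1 - x.1) j = 0) → y ∈ s := by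
  rw [nhds_induced, Filter.mem_comap]
  constructor
  · rintro ⟨t, ht, hts⟩
    obtain ⟨N, hN⟩ := (LTO_nhds x.1 t).1 ht
    exact ⟨N, fun y hy => hts (hN y.1 hy)⟩
  · rintro ⟨N, hN⟩
    refine ⟨{y | ∀ j < N, cf (y - x.1) j = 0}, (LTO_nhds x.1 _).2 ⟨N, fun y hy => hy⟩, ?_⟩
    intro y hy
    exact hN y hy

theorem LTO_divL : IsTopologicalDivisionRing Lam := by
  have := LTO_div
  have : IsTopologicalRing Lam := inferInstanceAs (IsTopologicalRing Lamf.toSubring)
  refine { continuousAt_inv₀ := ?_ }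
  intro x hx
  rw [Topology.IsInducing.subtypeVal.continuousAt_iff]
  have hx' : x.1 ≠ 0 := fun h => hx (Subtype.ext h)
  have h1 : ContinuousAt (fun y : LS (ZMod 2) => y⁻¹) x.1 := continuousAt_inv₀ hx'
  have h2 : ContinuousAt (Subtype.val : Lam → LS (ZMod 2)) x := continuous_subtype_val.continuousAt
  exact ContinuousAt.comp (g := fun y : LS (ZMod 2) => y⁻¹) h1 h2

theorem LTO_t2L : T2Space Lam := by
  have := LTO_t2
  infer_instance

/-- roots of nonzero polynomials over `Lam` are in `Lam` -/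
theorem LTO_root (m : ℕ) (c : ℕ → Lam) (x : LS (ZMod 2)) (i : ℕ) (hi : i ≤ m) (hc : c i ≠ 0)
    (hx : ∑ i ∈ range (m + 1), (c i).1 * x ^ i = 0) : x ∈ Lamf := by
  set E := IntermediateField.adjoin (ZMod 2) ({sv} : Set (LS (ZMod 2))) with hE
  set A := algebraicClosure E (LS (ZMod 2)) with hA
  have hcA : ∀ i, (c i).1 ∈ A := fun i => (c i).2
  set p : Polynomial A := ∑ i ∈ range (m + 1), Polynomial.monomial i (⟨(c i).1, hcA i⟩ : A) with hp
  have hp0 : p ≠ 0 := by
    intro h
    have h1 : p.coeff i = (⟨(c i).1, hcA i⟩ : A) := by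
      rw [hp, Polynomial.finsetSum_coeff]
      rw [Finset.sum_eq_single i]
      · rw [Polynomial.coeff_monomial, if_pos rfl]
      · intro b _ hb
        rw [Polynomial.coeff_monomial, if_neg hb]
      · intro h2
        exact absurd (Finset.mem_range.2 (by omega)) h2
    rw [h, Polynomial.coeff_zero] at h1
    apply hc
    apply Subtype.ext
    exact (congrArg Subtype.val h1).symm
  have hroot : Polynomial.aeval x p = 0 := by
    rw [hp, map_sum]
    simp only [Polynomial.aeval_monomial]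
    exact hx
  have halg : IsAlgebraic A x := ⟨p, hp0, hroot⟩
  have halg2 : IsAlgebraic E x := halg.restrictScalars E
  exact mem_algebraicClosure_iff.2 halg2

theorem LTO (hLHE : LHE_stmt) : LTO_stmt := by
  have := LTO_divL
  have := LTO_t2L
  refine ⟨inferInstance, LTO_divL, LTO_t2L, ?_, ?_⟩
  · intro m c x₀ hroot hder U hU
    obtain ⟨N, hN⟩ := (LTO_nhdsL x₀ U).1 hU
    have hroot' : ∑ i ∈ range (m + 1), (c i).1 * x₀.1 ^ i = 0 := by
      have := congrArg Subtype.val hroot
      simpa using this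
    have hder' : ∑ i ∈ range (m + 1), (i : LS (ZMod 2)) * (c i).1 * x₀.1 ^ (i - 1) ≠ 0 := by
      intro h
      apply hder
      apply Subtype.ext
      simpa using h
    obtain ⟨M, hM⟩ := hLHE m (fun i => (c i).1) x₀.1 hroot' hder' N
    obtain ⟨i, hi, hi2⟩ := Finset.exists_ne_zero_of_sum_ne_zero hder
    have hci : c i ≠ 0 := by
      intro h
      rw [h] at hi2
      simp at hi2
    have hev1 : ∀ᶠ c' : ℕ → Lam in 𝓝 c, c' i ≠ 0 :=
      (continuous_apply i).continuousAt.eventually_ne hci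
    have hev2 : ∀ᶠ c' : ℕ → Lam in 𝓝 c, ∀ k ∈ range (m + 1), ∀ j < M,
        cf ((c' k).1 - (c k).1) j = 0 := by
      rw [Filter.eventually_all_finset]
      intro k _
      have h1 : {y : Lam | ∀ j < M, cf (y.1 - (c k).1) j = 0} ∈ 𝓝 (c k) :=
        (LTO_nhdsL (c k) _).2 ⟨M, fun y hy => hy⟩
      exact (continuous_apply k).continuousAt.eventually h1
    filter_upwards [hev1, hev2] with c' h1 h2
    obtain ⟨x, hx1, hx2⟩ := hM (fun i => (c' i).1)
      (fun k hk j hj => h2 k (Finset.mem_range.2 (by omega)) j hj)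
    have hxm : x ∈ Lamf := LTO_root m c' x i (by rw [Finset.mem_range] at hi; omega) h1 hx2
    refine ⟨⟨x, hxm⟩, hN ⟨x, hxm⟩ hx1, ?_⟩
    apply Subtype.ext
    simpa using hx2
  · rw [nhdsWithin_neBot]
    intro t ht
    obtain ⟨N, hN⟩ := (LTO_nhdsL 0 t).1 ht
    set n : ℕ := N.toNat with hn
    have hcoe : ∀ k : ℕ, (sL ^ k : Lam).1 = mono (k : ℤ) 1 := by
      intro k
      induction k with
      | zero =>
        apply LS.ext
        intro j
        rw [pow_zero, cf_mono]
        exact cf_one j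
      | succ k ih =>
        rw [pow_succ]
        show (sL ^ k : Lam).1 * sv = _
        rw [ih, sv, mono_mul_mono, one_mul]
        push_cast
        rfl
    refine ⟨sL ^ n, hN _ ?_, ?_⟩
    · intro j hj
      have h1 : ((sL ^ n : Lam).1 - (0 : Lam).1) = mono (n : ℤ) 1 := by
        rw [hcoe]; exact sub_zero _
      rw [h1, cf_mono, if_neg]
      omega
    · intro h
      have h1 : (sL ^ n : Lam).1 = 0 := congrArg Subtype.val h
      rw [hcoe] at h1
      have h2 := congrArg (fun f => cf f (n : ℤ)) h1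
      simp only [cf_mono, if_true, cf_zero] at h2
      exact one_ne_zero h2

end

end MX
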